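import Pool.Agent.X146.Yau.Sec

set_option autoImplicit false

/-!
# Yau's upper bound for the nodal length for Liouville metrics

The torus `T = ℝ² / (α ℤ × β ℤ)` carries the smooth Liouville metric
`g = (a x + b y) (dx² + dy²)`, which may degenerate at some points (`a x + b y ≥ 0`, not
identically zero). Where it does not degenerate its Laplace operator is
`Δ_g u = (u_xx + u_yy) / (a x + b y)`.
-/

namespace Pool.Agent.Results.MP_c7f82c_an.LiouvilleTori

open Set MeasureTheory Pool.Agent.X146.Yau
open scoped ContDiff ENNReal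

/-- `u` (lifted to the plane) is an eigenfunction with eigenvalue `lam` of the Laplace operator of
the metric `(a x + b y) (dx² + dy²)` on the torus `ℝ² / (α ℤ × β ℤ)`: it is smooth, doubly
periodic, not identically zero and `u_xx + u_yy + lam (a x + b y) u = 0`, that is,
`Δ_g u + lam u = 0`. -/
structure IsEigenfunction (α β : ℝ) (a b : ℝ → ℝ) (lam : ℝ) (u : ℝ × ℝ → ℝ) : Prop where
  smooth : ContDiff ℝ ∞ u
  periodic_x : ∀ x y, u (x + α, y) = u (x, y)
  periodic_y : ∀ x y, u (x, y + β) = u (x, y)
  ne_zero : ∃ p, u p ≠ 0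
  equation : ∀ x y,
    deriv (deriv (fun s => u (s, y))) x + deriv (deriv (fun t => u (x, t))) y +
      lam * ((a x + b y) * u (x, y)) = 0

/-- The nodal set of `u`, in the fundamental rectangle `[0, α) × [0, β)` of the torus (as a subset
of the Euclidean plane `ℂ`). -/
def nodalSet (α β : ℝ) (u : ℝ × ℝ → ℝ) : Set ℂ :=
  {z | z.re ∈ Ico 0 α ∧ z.im ∈ Ico 0 β ∧ u (z.re, z.im) = 0}

/-- The length of a set in the metric `(a x + b y) (dx² + dy²)`: the integral of
`√(a x + b y)` with respect to the one-dimensional Euclidean Hausdorff measure. -/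
noncomputable def riemannianLength (a b : ℝ → ℝ) (Z : Set ℂ) : ℝ≥0∞ :=
  ∫⁻ z in Z, ENNReal.ofReal (√(a z.re + b z.im)) ∂μH[1]

/-- **Nodal length for Liouville metrics.** Every eigenfunction with eigenvalue `lam > 0` of the
metric `(a x + b y) (dx² + dy²)` on the torus `ℝ² / (α ℤ × β ℤ)` has nodal length at most
`108 (α + β)² M √lam`, where `M` is any upper bound of the conformal factor `a x + b y`. -/
theorem result (α β : ℝ) (hα : 0 < α) (hβ : 0 < β) (a b : ℝ → ℝ) (ha : ContDiff ℝ ∞ a)
    (hb : ContDiff ℝ ∞ b) (hap : ∀ x, a (x + α) = a x) (hbp : ∀ y, b (y + β) = b y)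
    (hnonneg : ∀ x y, 0 ≤ a x + b y) (hpos : ∃ x y, 0 < a x + b y) (M : ℝ)
    (hM : ∀ x y, a x + b y ≤ M) (lam : ℝ) (hlam : 0 < lam) (u : ℝ × ℝ → ℝ)
    (hu : IsEigenfunction α β a b lam u) :
    riemannianLength a b (nodalSet α β u) ≤ ENNReal.ofReal (108 * (α + β) ^ 2 * M * √lam) := by
  have hM0 : 0 ≤ M := (hnonneg 0 0).trans (hM 0 0)
  -- normalisation of the two summands
  obtain ⟨x₀, -, hx₀⟩ := (isCompact_Icc (a := (0 : ℝ)) (b := α)).exists_isMinOn
    (nonempty_Icc.mpr hα.le) ha.continuous.continuousOn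
  have hmin : ∀ x, a x₀ ≤ a x := fun x => by
    obtain ⟨y, hy, hxy⟩ := (show Function.Periodic a α from hap).exists_mem_Ico₀ hα x
    rw [hxy]
    exact hx₀ (mem_Icc_of_Ico hy)
  have hE : IsEig α β (pot lam (fun x => a x - a x₀) (fun y => b y + a x₀)) u := by
    refine ⟨hu.smooth, fun p => ⟨hu.periodic_x _ _, hu.periodic_y _ _⟩, fun p => ?_⟩
    obtain ⟨x, y⟩ := p
    have h1 : deriv (deriv (fun s => u (s, y))) x = Dx (Dx u) (x, y) := by
      have : deriv (fun s => u (s, y)) = fun s => Dx u (s, y) :=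
        funext fun s => (hasDerivAt_Dx hu.smooth s y).deriv
      rw [this]
      exact (hasDerivAt_Dx (smooth_Dx hu.smooth) x y).deriv
    have h2 : deriv (deriv (fun t => u (x, t))) y = Dy (Dy u) (x, y) := by
      have : deriv (fun t => u (x, t)) = fun t => Dy u (x, t) :=
        funext fun t => (hasDerivAt_Dy hu.smooth x t).deriv
      rw [this]
      exact (hasDerivAt_Dy (smooth_Dy hu.smooth) x y).deriv
    have h3 := hu.equation x y
    rw [h1, h2] at h3
    simp only [pot]
    linear_combination h3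
  have key := nodal_le hα hβ hlam (a := fun x => a x - a x₀) (b := fun y => b y + a x₀)
    (A := M) (B := M) (ha.sub contDiff_const) (hb.add contDiff_const)
    (fun x => by simp only [hap x]) (fun y => by simp only [hbp y])
    (fun x y => by linarith [hnonneg x y])
    (by
      obtain ⟨x, y, h⟩ := hpos
      exact ⟨x, y, by linarith⟩)
    (fun x => by
      have h1 := hmin x
      have h2 := hM x 0
      have h3 := hnonneg x₀ 0
      rw [abs_le]
      constructor <;> linarith)
    (fun y => by
      have h2 := hM x₀ y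
      have h3 := hnonneg x₀ y
      rw [abs_le]
      constructor <;> linarith) hE hu.ne_zero
  have hsub : nodalSet α β u ⊆ nodal α β (fun x y => u (x, y)) :=
    fun z hz => ⟨mem_Icc_of_Ico hz.1, mem_Icc_of_Ico hz.2.1, hz.2.2⟩
  calc riemannianLength a b (nodalSet α β u)
      ≤ ∫⁻ _ in nodalSet α β u, ENNReal.ofReal √M ∂μH[1] := by
        refine lintegral_mono fun z => ENNReal.ofReal_le_ofReal (Real.sqrt_le_sqrt (hM _ _))
    _ = ENNReal.ofReal √M * μH[1] (nodalSet α β u) := by
        rw [setLIntegral_const]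
    _ ≤ ENNReal.ofReal √M * ENNReal.ofReal (54 * (α + β) ^ 2 * √(2 * (M + M)) * √lam) :=
        mul_le_mul_right ((measure_mono hsub).trans key) _
    _ = ENNReal.ofReal (108 * (α + β) ^ 2 * M * √lam) := by
        rw [← ENNReal.ofReal_mul (Real.sqrt_nonneg _)]
        congr 1
        have h1 : √(2 * (M + M)) = 2 * √M := by
          rw [show 2 * (M + M) = 2 ^ 2 * M by ring, Real.sqrt_mul (by norm_num),
            Real.sqrt_sq (by norm_num)]
        rw [h1]
        have h2 := Real.mul_self_sqrt hM0
        linear_combination (108 * (α + β) ^ 2 * √lam) * h2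

end Pool.Agent.Results.MP_c7f82c_an.LiouvilleTori
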