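import Pool.Agent.X146.Yau.SphLen

set_option autoImplicit false

/-!
# Yau's upper bound for the nodal length on spheres of revolution

A smooth Riemannian metric on the sphere `S²` which is invariant under the rotations about an axis
is, on the complement of the two poles and in conformal cylinder coordinates `(x, θ)`,
`x ∈ ℝ`, `θ ∈ ℝ / 2πℤ`, the metric `g = ρ x (dx² + dθ²)` with a smooth positive function `ρ` for
which `ρ x e^{2|x|}` is bounded (`x = log r + O(1)` and `ρ = O(r²)` at distance `r` of a pole).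
Its Laplace operator is `Δ_g u = (u_xx + u_θθ) / ρ x`, and functions which are smooth on the
sphere are smooth and bounded on the cylinder.
-/

namespace Pool.Agent.Results.MP_c7f82c_an.SpheresOfRevolution

open Set MeasureTheory Pool.Agent.X146.Yau Real
open scoped ContDiff ENNReal

/-- `u` (lifted to the plane) is a bounded eigenfunction with eigenvalue `lam` of the Laplace
operator of the metric `ρ x (dx² + dθ²)` on the cylinder `ℝ × ℝ / 2πℤ`: it is smooth, bounded,
`2π`-periodic in `θ`, not identically zero and `Δ_g u + lam u = 0`. -/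
structure IsEigenfunction (ρ : ℝ → ℝ) (lam : ℝ) (u : ℝ × ℝ → ℝ) : Prop where
  smooth : ContDiff ℝ ∞ u
  bounded : ∃ B, ∀ p, |u p| ≤ B
  periodic : ∀ x θ, u (x, θ + 2 * π) = u (x, θ)
  ne_zero : ∃ p, u p ≠ 0
  equation : ∀ x θ,
    (deriv (deriv (fun s => u (s, θ))) x + deriv (deriv (fun t => u (x, t))) θ) / ρ x +
      lam * u (x, θ) = 0

/-- The nodal set of `u` on the cylinder, `0 ≤ θ < 2π` (as a subset of the Euclidean
plane `ℂ`, `x + i θ`). -/
def nodalSet (u : ℝ × ℝ → ℝ) : Set ℂ :=
  {z | z.im ∈ Ico 0 (2 * π) ∧ u (z.re, z.im) = 0}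

/-- The length of a set in the metric `ρ x (dx² + dθ²)`: the integral of `√(ρ x)` with respect to
the one-dimensional Euclidean Hausdorff measure. -/
noncomputable def riemannianLength (ρ : ℝ → ℝ) (Z : Set ℂ) : ℝ≥0∞ :=
  ∫⁻ z in Z, ENNReal.ofReal (√(ρ z.re)) ∂μH[1]

/-- **Nodal length on spheres of revolution.** Every bounded eigenfunction with eigenvalue
`lam > 0` of the metric `ρ x (dx² + dθ²)`, `0 < ρ x ≤ M e^{-2|x|}`, has nodal length at most
`5400 M √lam`. -/
theorem result (ρ : ℝ → ℝ) (hρ : Continuous ρ) (hpos : ∀ x, 0 < ρ x) (M : ℝ)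
    (hM : ∀ x, ρ x ≤ M * exp (-2 * |x|)) (lam : ℝ) (hlam : 0 < lam) (u : ℝ × ℝ → ℝ)
    (hu : IsEigenfunction ρ lam u) :
    riemannianLength ρ (nodalSet u) ≤ ENNReal.ofReal (5400 * M * √lam) := by
  have hE : IsSph (fun x => lam * ρ x) u := by
    refine ⟨hu.smooth, fun x t => hu.periodic x t, hu.bounded, fun p => ?_⟩
    obtain ⟨x, y⟩ := p
    have h1 : deriv (deriv (fun s => u (s, y))) x = Dx (Dx u) (x, y) := by
      have : deriv (fun s => u (s, y)) = fun s => Dx u (s, y) :=
        funext fun s => (hasDerivAt_Dx hu.smooth s y).deriv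
      rw [this]
      exact (hasDerivAt_Dx (smooth_Dx hu.smooth) x y).deriv
    have h2 : deriv (deriv (fun t => u (x, t))) y = Dy (Dy u) (x, y) := by
      have : deriv (fun t => u (x, t)) = fun t => Dy u (x, t) :=
        funext fun t => (hasDerivAt_Dy hu.smooth x t).deriv
      rw [this]
      exact (hasDerivAt_Dy (smooth_Dy hu.smooth) x y).deriv
    have h3 := hu.equation x y
    rw [h1, h2] at h3
    have h4 := hpos x
    have h5 : Dx (Dx u) (x, y) + Dy (Dy u) (x, y) = -(lam * u (x, y)) * ρ x := by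
      rw [← div_eq_iff h4.ne']
      linarith
    rw [h5]
    ring
  refine le_trans (lintegral_mono_set fun z hz => ?_) (sphere_le hρ hlam hpos hM hE hu.ne_zero)
  exact ⟨mem_Icc_of_Ico hz.1, hz.2⟩

end Pool.Agent.Results.MP_c7f82c_an.SpheresOfRevolution
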