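import Pool.Agent.X146.Yau.Tw2

set_option autoImplicit false

/-!
# Yau's upper bound for the nodal length on tori with a Killing field

A smooth Riemannian metric on the torus which is invariant under an effective action of the circle
is isometric to the quotient of the plane with the metric `g = ρ x (dx² + dθ²)`, `ρ` smooth,
positive and `α`-periodic, by the lattice generated by `(0, 2π)` and `(α, τ)`, for some `α > 0`
and some real `τ` (the twist). Its Laplace operator is `Δ_g u = (u_xx + u_θθ) / ρ x`.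
-/

namespace Pool.Agent.Results.MP_c7f82c_an.SymmetricTori

open Set MeasureTheory Pool.Agent.X146.Yau Real
open scoped ContDiff ENNReal

/-- `u` (lifted to the plane) is an eigenfunction with eigenvalue `lam` of the Laplace operator of
the metric `ρ x (dx² + dθ²)` on the torus `ℝ² / (ℤ (0, 2π) + ℤ (α, τ))`: it is smooth, invariant
under the two translations, not identically zero and `Δ_g u + lam u = 0`. -/
structure IsEigenfunction (ρ : ℝ → ℝ) (α τ lam : ℝ) (u : ℝ × ℝ → ℝ) : Prop where
  smooth : ContDiff ℝ ∞ u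
  periodic₁ : ∀ x θ, u (x, θ + 2 * π) = u (x, θ)
  periodic₂ : ∀ x θ, u (x + α, θ + τ) = u (x, θ)
  ne_zero : ∃ p, u p ≠ 0
  equation : ∀ x θ,
    (deriv (deriv (fun s => u (s, θ))) x + deriv (deriv (fun t => u (x, t))) θ) / ρ x +
      lam * u (x, θ) = 0

/-- The nodal set of `u` in the fundamental domain `0 ≤ x < α`, `0 ≤ θ < 2π` of the lattice (as a
subset of the Euclidean plane `ℂ`, `x + i θ`). -/
def nodalSet (α : ℝ) (u : ℝ × ℝ → ℝ) : Set ℂ :=
  {z | z.re ∈ Ico 0 α ∧ z.im ∈ Ico 0 (2 * π) ∧ u (z.re, z.im) = 0}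

/-- The length of a set in the metric `ρ x (dx² + dθ²)`: the integral of `√(ρ x)` with respect to
the one-dimensional Euclidean Hausdorff measure. -/
noncomputable def riemannianLength (ρ : ℝ → ℝ) (Z : Set ℂ) : ℝ≥0∞ :=
  ∫⁻ z in Z, ENNReal.ofReal (√(ρ z.re)) ∂μH[1]

/-- **Nodal length on tori with a Killing field.** Every eigenfunction with eigenvalue `lam > 0` of
the metric `ρ x (dx² + dθ²)`, `0 < ρ x ≤ M`, `ρ` continuous and `α`-periodic, on the torus
`ℝ² / (ℤ (0, 2π) + ℤ (α, τ))` has nodal length at most `7000 (1 + α)² M √lam`. -/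
theorem result (ρ : ℝ → ℝ) (hρ : Continuous ρ) (α τ : ℝ) (hα : 0 < α)
    (hρα : Function.Periodic ρ α) (hpos : ∀ x, 0 < ρ x) (M : ℝ) (hM : ∀ x, ρ x ≤ M)
    (lam : ℝ) (hlam : 0 < lam) (u : ℝ × ℝ → ℝ) (hu : IsEigenfunction ρ α τ lam u) :
    riemannianLength ρ (nodalSet α u) ≤ ENNReal.ofReal (7000 * (1 + α) ^ 2 * M * √lam) := by
  have hE : ∀ p, Dx (Dx u) p + Dy (Dy u) p = -(lam * ρ p.1 * u p) := by
    intro p
    obtain ⟨x, y⟩ := p
    have h1 : deriv (deriv (fun s => u (s, y))) x = Dx (Dx u) (x, y) := by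
      have : deriv (fun s => u (s, y)) = fun s => Dx u (s, y) :=
        funext fun s => (hasDerivAt_Dx hu.smooth s y).deriv
      rw [this]
      exact (hasDerivAt_Dx (smooth_Dx hu.smooth) x y).deriv
    have h2 : deriv (deriv (fun t => u (x, t))) y = Dy (Dy u) (x, y) := by
      have : deriv (fun t => u (x, t)) = fun t => Dy u (x, t) :=
        funext fun t => (hasDerivAt_Dy hu.smooth x t).deriv
      rw [this]
      exact (hasDerivAt_Dy (smooth_Dy hu.smooth) x y).deriv
    have h3 := hu.equation x y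
    rw [h1, h2] at h3
    have h4 := hpos x
    have h5 : Dx (Dx u) (x, y) + Dy (Dy u) (x, y) = -(lam * u (x, y)) * ρ x := by
      rw [← div_eq_iff h4.ne']
      linarith
    rw [h5]
    ring
  refine le_trans (lintegral_mono_set fun z hz => ?_)
    (torus_le hρ hα hlam hρα hpos hM hu.smooth (fun x t => hu.periodic₁ x t) hu.periodic₂ hE
      hu.ne_zero)
  exact ⟨mem_Icc_of_Ico hz.1, mem_Icc_of_Ico hz.2.1, hz.2.2⟩

end Pool.Agent.Results.MP_c7f82c_an.SymmetricTori
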